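import Pool.Agent.Run7.h744.DD.Iface

/-!
Project DD: elementary calculus of the partial derivatives `pd`.
-/

set_option autoImplicit false

open MeasureTheory Set Filter Topology
open scoped InnerProductSpace ContDiff

namespace Run7.h56.DD

open Run7.h744.DD
open H772R2.NS (E3 M3)

section
variable {f g : E3 → ℝ}

theorem pd_add (hf : ContDiff ℝ ∞ f) (hg : ContDiff ℝ ∞ g) (i : Fin 3) (x : E3) :
    pd i (fun y => f y + g y) x = pd i f x + pd i g x := by
  unfold pd
  rw [fderiv_fun_add ((hf.differentiable (by simp)) x) ((hg.differentiable (by simp)) x)]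
  rfl

theorem pd_sub (hf : ContDiff ℝ ∞ f) (hg : ContDiff ℝ ∞ g) (i : Fin 3) (x : E3) :
    pd i (fun y => f y - g y) x = pd i f x - pd i g x := by
  unfold pd
  rw [fderiv_fun_sub ((hf.differentiable (by simp)) x) ((hg.differentiable (by simp)) x)]
  rfl

theorem pd_mul (hf : ContDiff ℝ ∞ f) (hg : ContDiff ℝ ∞ g) (i : Fin 3) (x : E3) :
    pd i (fun y => f y * g y) x = pd i f x * g x + f x * pd i g x := by
  unfold pd
  rw [fderiv_fun_mul ((hf.differentiable (by simp)) x) ((hg.differentiable (by simp)) x)]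
  simp only [add_apply, FunLike.coe_smul, Pi.smul_apply, smul_eq_mul]
  ring

theorem pd_const_mul (c : ℝ) (hf : ContDiff ℝ ∞ f) (i : Fin 3) (x : E3) :
    pd i (fun y => c * f y) x = c * pd i f x := by
  unfold pd
  rw [fderiv_const_mul ((hf.differentiable (by simp)) x)]
  rfl

theorem pd_sum {ι : Type} (s : Finset ι) {f : ι → E3 → ℝ} (hf : ∀ k ∈ s, ContDiff ℝ ∞ (f k))
    (i : Fin 3) (x : E3) :
    pd i (fun y => ∑ k ∈ s, f k y) x = ∑ k ∈ s, pd i (f k) x := by
  unfold pd
  rw [fderiv_fun_sum fun k hk => ((hf k hk).differentiable (by simp)) x,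
    _root_.sum_apply]

theorem contDiff_pd (hf : ContDiff ℝ ∞ f) (i : Fin 3) : ContDiff ℝ ∞ (pd i f) :=
  (hf.fderiv_right (m := ∞) (by simp)).clm_apply contDiff_const

theorem compact_pd (hf : HasCompactSupport f) (i : Fin 3) : HasCompactSupport (pd i f) :=
  hf.fderiv_apply ℝ _

theorem tsupport_pd (f : E3 → ℝ) (i : Fin 3) : tsupport (pd i f) ⊆ tsupport f := by
  refine closure_minimal ?_ (isClosed_tsupport f)
  intro x hx
  by_contra hcon
  apply hx
  have h0 : fderiv ℝ f x = 0 :=
    image_eq_zero_of_notMem_tsupport fun h => hcon (tsupport_fderiv_subset ℝ h)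
  unfold pd
  rw [h0]
  rfl

theorem integrable_pd (hf : ContDiff ℝ ∞ f) (hc : HasCompactSupport f) (i : Fin 3) :
    Integrable (pd i f) (volume : Measure E3) :=
  (contDiff_pd hf i).continuous.integrable_of_hasCompactSupport (compact_pd hc i)

theorem integral_pd (hf : ContDiff ℝ ∞ f) (hc : HasCompactSupport f) (i : Fin 3) :
    ∫ x, pd i f x = 0 := by
  have hI : Integrable (fun x => (fderiv ℝ f x) (EuclideanSpace.single i 1))
    (volume : Measure E3) := integrable_pd hf hc i
  have h := integral_mul_fderiv_eq_neg_fderiv_mul_of_integrable (μ := (volume : Measure E3))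
    (f := fun _ : E3 => (1 : ℝ)) (g := f) (v := EuclideanSpace.single i 1) (by simp)
    (by simpa using hI)
    (by simpa using hf.continuous.integrable_of_hasCompactSupport hc)
    (fun x _ => differentiableAt_const _) (fun x _ => (hf.differentiable (by simp)) x)
  simpa [pd] using h

theorem contDiff_lapS (hf : ContDiff ℝ ∞ f) : ContDiff ℝ ∞ (lapS f) :=
  ContDiff.sum fun j _ => contDiff_pd (contDiff_pd hf j) j

end

end Run7.h56.DD
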