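import Pool.Agent.Run7.h56.DD.WI
import Pool.Agent.W52.TQ.Univ

/-!
Project DD: one cell added to a good test field.
-/

set_option autoImplicit false

open MeasureTheory Set Filter Topology
open scoped InnerProductSpace ContDiff

namespace Run7.h56.DD

open Run7.h744.DD
open H772R2.NS (E3 M3 L2V L2M graphW tensL IsTest jac contDiff_coord)
open H772R2.NSR (exists_frame rellich_W)

/-- `∫ f · φ` is the integral of an integrable function. -/
theorem int_dot {f φ : E3 → E3} (hf : Continuous f) (hφ : Sm φ) :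
    Integrable (fun x => ∑ k, f x k * φ x k) (volume : Measure E3) := by
  have hφk : ∀ k, Continuous fun x => φ x k := fun k => (contDiff_coord hφ.smooth k).continuous
  have hfk : ∀ k : Fin 3, Continuous fun x => f x k := fun k =>
    (EuclideanSpace.proj (𝕜 := ℝ) k : E3 →L[ℝ] ℝ).continuous.comp hf
  refine Continuous.integrable_of_hasCompactSupport
    (continuous_finsetSum _ fun k _ => (hfk k).mul (hφk k)) ?_
  refine hφ.compact.mono fun x hx h0 => hx ?_
  simp [show φ x = 0 from h0]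

theorem isTest_of_SmF {Ω K : Set E3} (hK : IsCompact K) (hKΩ : K ⊆ Ω) {g : ℝ → E3 → E3}
    (hg : SmF K g) (hd : ∀ t x, ∑ i, pd i (fun y => g t y i) x = 0) (t : ℝ) : IsTest Ω (g t) := by
  have hs : ContDiff ℝ ∞ (g t) := hg.smooth.comp (contDiff_const.prodMk contDiff_id)
  refine ⟨hs, HasCompactSupport.intro hK fun x hx => hg.supp t x hx, ?_, ?_⟩
  · refine (closure_minimal ?_ hK.isClosed).trans hKΩ
    intro x hx
    by_contra h
    exact hx (hg.supp t x h)
  · intro x
    rw [← hd t x]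
    exact Finset.sum_congr rfl fun i _ => jac_pd hs i i x

theorem t_STEP : S_ONE → S_LIFT → S_RES → S_OSC → S_GEO → S_PS → S_STEP := by
  intro hONE hLIFT hRES hOSC hGEO hPS α b A hcell Ω hΩ hb ν hν g U Y hgood x0 ρ β σ hρ hβ
    hball n φ hφ η hη
  obtain ⟨hgt, hU0, U1, Y1, hglob⟩ := hgood
  obtain ⟨a, w, ha, hw, hV, hVs, has, hws, hVd, hdis, heq⟩ :=
    hGEO α b A hcell ν β ρ x0 σ hν hβ hρ
  have hKcc : IsCompact (tsupport g ∪ Metric.closedBall x0 ρ) :=
    hgt.compact.isCompact.union (isCompact_closedBall x0 ρ)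
  have hKΩ : tsupport g ∪ Metric.closedBall x0 ρ ⊆ Ω := union_subset hgt.supp hball
  have hgS : Sm g := ⟨hgt.smooth, hgt.compact⟩
  have hgd : ∀ x, ∑ i, pd i (fun y => g y i) x = 0 := by
    intro x
    rw [← hgt.divfree x]
    exact Finset.sum_congr rfl fun i _ => (jac_pd hgt.smooth i i x).symm
  obtain ⟨Q, hQ, hres⟩ := hRES ν (tsupport g ∪ Metric.closedBall x0 ρ) g
    (fun x => β • cellV b x0 ρ σ x) a w hν hKcc hgS hV ha hw subset_union_left
    (hVs.trans subset_union_right) (fun l => (has l).trans subset_union_right)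
    (hws.trans subset_union_right) hgd hVd hdis heq
  obtain ⟨V0, hV0, hlift⟩ := hLIFT Ω (tsupport g ∪ Metric.closedBall x0 ρ) hΩ hKcc hKΩ
  obtain ⟨C, Fr⟩ := exists_frame hΩ hb
  obtain ⟨c, hc, hU⟩ := Pool.Agent.W52.TQ.proof_univ
  obtain ⟨lam2, hlam2, hone⟩ := hONE (L2V Ω) (L2M Ω) (graphW Ω) tensL C c ν U U1 Y Y1 Fr
    (hU Ω hΩ) (rellich_W hΩ hb) hν hglob (V0 * Q) η (mul_pos hV0 hQ) hη
  have hpk : ∀ᶠ lam : ℝ in atTop, ∀ i,
      |∑ l, ∫ x, ∑ k, pkt ν lam g (fun x => β • cellV b x0 ρ σ x) (a l) l 0 x k * φ i x k|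
        ≤ η := by
    rw [eventually_all]
    intro i
    have h1 : Tendsto (fun lam : ℝ => ∑ l,
        ∫ x, ∑ k, pkt ν lam g (fun x => β • cellV b x0 ρ σ x) (a l) l 0 x k * φ i x k) atTop
        (𝓝 (∑ _l : Fin 3, 0)) :=
      tendsto_finsetSum _ fun l _ => hOSC ν g _ (a l) l (φ i) hgS hV (ha l) (hφ i)
    rw [Finset.sum_const_zero] at h1
    have h2 := h1.abs
    rw [abs_zero] at h2
    exact (h2.eventually (gt_mem_nhds hη)).mono fun lam h => h.le
  obtain ⟨lam, hl1, hl2⟩ := (hpk.and (eventually_ge_atTop lam2)).exists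
  have hlam1 : 1 ≤ lam := hlam2.trans hl2
  obtain ⟨r1, r2, r3, r4, r5⟩ := hres lam hlam1
  obtain ⟨L, L1, E, E1, G, G1, YY, YY1, crv, dL, cL, dE, cE, hG, hYY, bL, bL1, bE, bE1, bY, bG⟩ :=
    hlift ν (cur ν lam g (fun x => β • cellV b x0 ρ σ x) a) (prs ν lam w) r1 r2 r3
  have hbg : Bg ν lam (V0 * Q) L L1 E E1 :=
    { dL := dL
      cL := cL
      dE := dE
      cE := cE
      bL := fun t ht => by rw [mul_assoc]; exact bL t _ fun x => (r4 t ht.1 x).1
      bL1 := fun t ht => by rw [mul_assoc]; exact bL1 t _ fun x => (r4 t ht.1 x).2.1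
      bE := fun t ht => by rw [mul_assoc]; exact bE t _ fun x => (r4 t ht.1 x).2.2.1
      bE1 := fun t ht => by rw [mul_assoc]; exact bE1 t _ fun x => (r4 t ht.1 x).2.2.2 }
  obtain ⟨u, u1, z, z1, hu0, hug, hclose⟩ := hone lam L L1 E E1 G G1 YY YY1 hl2 hbg crv (by
      rw [mul_div_assoc]
      exact bG (1 / lam) (Q / lam) g (U 0) hU0 hgt.smooth.continuous
        (fun x hx => image_eq_zero_of_notMem_tsupport fun h => hx (Or.inl h))
        (fun x => (r5 x).1)) (bY (1 / lam) Q fun x => (r5 x).2)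
  refine ⟨cur ν lam g (fun x => β • cellV b x0 ρ σ x) a 0, u, z,
    ⟨isTest_of_SmF hKcc hKΩ r1 r3 0, ?_, u1, z1, hug⟩, ?_, hclose⟩
  · rw [hu0]
    exact hG 0
  · intro i
    have hpc : ∀ l, Continuous
        (pkt ν lam g (fun x => β • cellV b x0 ρ σ x) (a l) l 0) := by
      intro l
      have h1 := (hPS ν lam g (fun x => β • cellV b x0 ρ σ x) (a l) l hgS hV (ha l)).1
      exact (h1.smooth.comp (contDiff_const.prodMk contDiff_id)).continuous
    have i1 := int_dot hgt.smooth.continuous (hφ i)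
    have i2 := int_dot hV.smooth.continuous (hφ i)
    have i3 : Integrable (fun x => ∑ l, ∑ k,
        pkt ν lam g (fun x => β • cellV b x0 ρ σ x) (a l) l 0 x k * φ i x k)
        (volume : Measure E3) := integrable_finsetSum _ fun l _ => int_dot (hpc l) (hφ i)
    have e1 : (fun x => ∑ k, cur ν lam g (fun x => β • cellV b x0 ρ σ x) a 0 x k * φ i x k)
        = fun x => (∑ k, g x k * φ i x k)
          + (∑ k, (β • cellV b x0 ρ σ x : E3) k * φ i x k)
          + ∑ l, ∑ k, pkt ν lam g (fun x => β • cellV b x0 ρ σ x) (a l) l 0 x k * φ i x k := by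
      funext x
      have e2 : ∀ k, cur ν lam g (fun x => β • cellV b x0 ρ σ x) a 0 x k
          = g x k + (β • cellV b x0 ρ σ x : E3) k
            + ∑ l, pkt ν lam g (fun x => β • cellV b x0 ρ σ x) (a l) l 0 x k := by
        intro k
        unfold cur mnf
        rw [mul_zero, neg_zero, Real.exp_zero, one_smul]
        simp only [PiLp.add_apply, WithLp.ofLp_sum, Finset.sum_apply]
      simp only [e2, Fin.sum_univ_three]
      ring
    have i12 : Integrable (fun x => (∑ k, g x k * φ i x k)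
          + (∑ k, (β • cellV b x0 ρ σ x : E3) k * φ i x k)) (volume : Measure E3) := i1.add i2
    rw [e1, integral_add i12 i3, integral_add i1 i2,
      integral_finsetSum _ fun l _ => int_dot (hpc l) (hφ i)]
    have h3 := hl1 i
    refine le_of_eq_of_le (congrArg abs ?_) h3
    ring

end Run7.h56.DD
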