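import Pool.Agent.Run7.h56.DD.Calc

/-!
Project DD: the weak identity.
-/

set_option autoImplicit false

open MeasureTheory Set Filter Topology
open scoped InnerProductSpace ContDiff

namespace Run7.h56.DD

open Run7.h744.DD
open H772R2.NS (E3 M3 L2V L2M graphW preW tensL tens IsTest jac ev jac_apply inner_E3 inner_M3
  tens_apply fderiv_coord contDiff_coord hasCompactSupport_coord graphW_induction tensL_coe)

theorem jac_pd {φ : E3 → E3} (h : ContDiff ℝ ∞ φ) (i j : Fin 3) (x : E3) :
    jac φ x (i, j) = pd j (fun y => φ y i) x := by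
  rw [jac_apply]
  unfold pd
  rw [fderiv_coord h]

section
variable {Ω : Set E3} {g φ : E3 → E3} {P : E3 → ℝ}

/-- the first divergence -/
theorem div1 (hg : ContDiff ℝ ∞ g) (hφ : ContDiff ℝ ∞ φ) (x : E3) :
    ∑ j, pd j (fun y => ∑ i, φ y i * pd j (fun z => g z i) y) x
      = (∑ i, ∑ j, pd j (fun y => φ y i) x * pd j (fun y => g y i) x)
        + ∑ i, φ x i * lapS (fun y => g y i) x := by
  have hgi : ∀ i, ContDiff ℝ ∞ fun y => g y i := fun i => contDiff_coord hg i
  have hφi : ∀ i, ContDiff ℝ ∞ fun y => φ y i := fun i => contDiff_coord hφ i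
  have h1 : ∀ j, pd j (fun y => ∑ i, φ y i * pd j (fun z => g z i) y) x
      = ∑ i, (pd j (fun y => φ y i) x * pd j (fun y => g y i) x
        + φ x i * pd j (pd j fun y => g y i) x) := by
    intro j
    rw [pd_sum Finset.univ (f := fun i y => φ y i * pd j (fun z => g z i) y)
      (fun i _ => (hφi i).mul (contDiff_pd (hgi i) j))]
    exact Finset.sum_congr rfl fun i _ => pd_mul (hφi i) (contDiff_pd (hgi i) j) j x
  simp only [h1, Finset.sum_add_distrib]
  congr 1
  · exact Finset.sum_comm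
  · rw [Finset.sum_comm]
    refine Finset.sum_congr rfl fun i _ => ?_
    unfold lapS
    rw [Finset.mul_sum]

/-- the second divergence -/
theorem div2 (hg : ContDiff ℝ ∞ g) (hd : ∀ x, ∑ i, pd i (fun y => g y i) x = 0)
    (hφ : ContDiff ℝ ∞ φ) (x : E3) :
    ∑ j, pd j (fun y => g y j * ∑ i, g y i * φ y i) x
      = (∑ i, (∑ j, g x j * pd j (fun y => g y i) x) * φ x i)
        + ∑ i, ∑ j, g x i * g x j * pd j (fun y => φ y i) x := by
  have hgi : ∀ i, ContDiff ℝ ∞ fun y => g y i := fun i => contDiff_coord hg i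
  have hφi : ∀ i, ContDiff ℝ ∞ fun y => φ y i := fun i => contDiff_coord hφ i
  have hs : ContDiff ℝ ∞ fun y => ∑ i, g y i * φ y i :=
    ContDiff.sum fun i _ => (hgi i).mul (hφi i)
  have h1 : ∀ j, pd j (fun y => g y j * ∑ i, g y i * φ y i) x
      = pd j (fun y => g y j) x * (∑ i, g x i * φ x i)
        + ∑ i, (g x j * pd j (fun y => g y i) x * φ x i
          + g x i * g x j * pd j (fun y => φ y i) x) := by
    intro j
    rw [pd_mul (hgi j) hs, pd_sum Finset.univ (f := fun i y => g y i * φ y i)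
      (fun i _ => (hgi i).mul (hφi i)), Finset.mul_sum _ _ (g x j)]
    congr 1
    refine Finset.sum_congr rfl fun i _ => ?_
    rw [pd_mul (hgi i) (hφi i)]
    ring
  simp only [h1, Finset.sum_add_distrib]
  rw [← Finset.sum_mul, hd, zero_mul, zero_add]
  congr 1
  · rw [Finset.sum_comm]
    refine Finset.sum_congr rfl fun i _ => ?_
    rw [Finset.sum_mul]
  · exact Finset.sum_comm

/-- the third divergence -/
theorem div3 (hP : ContDiff ℝ ∞ P) (hφ : ContDiff ℝ ∞ φ)
    (hd : ∀ x, ∑ i, pd i (fun y => φ y i) x = 0) (x : E3) :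
    ∑ j, pd j (fun y => P y * φ y j) x = ∑ i, pd i P x * φ x i := by
  have hφi : ∀ i, ContDiff ℝ ∞ fun y => φ y i := fun i => contDiff_coord hφ i
  have h1 : ∀ j, pd j (fun y => P y * φ y j) x = pd j P x * φ x j + P x * pd j (fun y => φ y j) x :=
    fun j => pd_mul hP (hφi j) j x
  simp only [h1, Finset.sum_add_distrib]
  rw [← Finset.mul_sum, hd, mul_zero, add_zero]

theorem int_div {F : Fin 3 → E3 → ℝ} (hF : ∀ j, ContDiff ℝ ∞ (F j))
    (hc : ∀ j, HasCompactSupport (F j)) :
    Integrable (fun x => ∑ j, pd j (F j) x) (volume : Measure E3) ∧ ∫ x, ∑ j, pd j (F j) x = 0 := by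
  refine ⟨integrable_finsetSum _ fun j _ => integrable_pd (hF j) (hc j) j, ?_⟩
  rw [integral_finsetSum _ fun j _ => integrable_pd (hF j) (hc j) j]
  exact Finset.sum_eq_zero fun j _ => integral_pd (hF j) (hc j) j

end

theorem comb0 (ν : ℝ) (a b c : E3 → ℝ) (ha : Integrable a) (hb : Integrable b)
    (hc : Integrable c) (za : ∫ x, a x = 0) (zb : ∫ x, b x = 0) (zc : ∫ x, c x = 0) :
    ∫ x, (ν * a x - b x + c x) = 0 := by
  have h1 : Integrable (fun x => ν * a x) := ha.const_mul ν
  have h2 : Integrable (fun x => ν * a x - b x) := h1.sub hb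
  rw [integral_add h2 hc, integral_sub h1 hb, integral_const_mul, za, zb, zc]
  ring

theorem comb1 {μ : Measure E3} (a b c : E3 → ℝ) (ha : Integrable a μ) (hb : Integrable b μ)
    (hc : Integrable c μ) :
    (∫ x, a x ∂μ) - (∫ x, b x ∂μ) + (∫ x, c x ∂μ) = ∫ x, (a x - b x + c x) ∂μ := by
  have h2 : Integrable (fun x => a x - b x) μ := ha.sub hb
  rw [integral_add h2 hc, integral_sub ha hb]

theorem t_WI : S_WI := by
  intro Ω hΩ ν g h P G X Hh Y hg _ _ hP _ hG hY hH hX
  have hm : MeasurableSet Ω := hΩ.measurableSet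
  have hGY : (G, Y) ∈ graphW Ω := Submodule.le_topologicalClosure _ ⟨g, hg, hG, hY⟩
  refine ⟨hGY, ?_⟩
  have hdiv : ∀ {φ : E3 → E3}, IsTest Ω φ → ∀ x, ∑ i, pd i (fun y => φ y i) x = 0 := by
    intro φ hφ x
    rw [← hφ.divfree x]
    exact Finset.sum_congr rfl fun i _ => (jac_pd hφ.smooth i i x).symm
  have key : ∀ p ∈ graphW Ω,
      ⟪Hh, p.1⟫_ℝ - ⟪-(ν • Y) + tensL G, p.2⟫_ℝ + ⟪X, p.1⟫_ℝ = 0 := by
    intro p hp
    refine graphW_induction (fun p : L2V Ω × L2M Ω =>
      ⟪Hh, p.1⟫_ℝ - ⟪-(ν • Y) + tensL G, p.2⟫_ℝ + ⟪X, p.1⟫_ℝ)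
      (Continuous.continuousOn (by fun_prop)) ?_ hp
    rintro q ⟨φ, hφ, k2, k3⟩
    show ⟪Hh, q.1⟫_ℝ - ⟪-(ν • Y) + tensL G, q.2⟫_ℝ + ⟪X, q.1⟫_ℝ = 0
    -- the three divergences
    have hgi : ∀ i, ContDiff ℝ ∞ fun y => g y i := fun i => contDiff_coord hg.smooth i
    have hφi : ∀ i, ContDiff ℝ ∞ fun y => φ y i := fun i => contDiff_coord hφ.smooth i
    have hφc : ∀ i, HasCompactSupport fun y => φ y i := fun i =>
      hasCompactSupport_coord hφ.compact i
    have hφz : ∀ x, x ∉ Ω → ∀ i, φ x i = 0 := by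
      intro x hx i
      rw [image_eq_zero_of_notMem_tsupport fun h => hx (hφ.supp h)]
      rfl
    have c1 : ∀ j, HasCompactSupport fun y => ∑ i, φ y i * pd j (fun z => g z i) y := by
      intro j
      refine hφ.compact.mono fun x hx h0 => hx ?_
      simp [show φ x = 0 from h0]
    have c2 : ∀ j : Fin 3, HasCompactSupport fun y => g y j * ∑ i, g y i * φ y i := by
      intro j
      refine hφ.compact.mono fun x hx h0 => hx ?_
      simp [show φ x = 0 from h0]
    have c3 : ∀ j, HasCompactSupport fun y => P y * φ y j := by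
      intro j
      refine hφ.compact.mono fun x hx h0 => hx ?_
      simp [show φ x = 0 from h0]
    obtain ⟨i1, z1⟩ := int_div (F := fun j y => ∑ i, φ y i * pd j (fun z => g z i) y)
      (fun j => ContDiff.sum fun i _ => (hφi i).mul (contDiff_pd (hgi i) j)) c1
    obtain ⟨i2, z2⟩ := int_div (F := fun j y => g y j * ∑ i, g y i * φ y i)
      (fun j => (hgi j).mul (ContDiff.sum fun i _ => (hgi i).mul (hφi i))) c2
    obtain ⟨i3, z3⟩ := int_div (F := fun j y => P y * φ y j)
      (fun j => hP.smooth.mul (hφi j)) c3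
    have hT : ∫ x in Ω, (ν * ((∑ i, ∑ j, pd j (fun y => φ y i) x * pd j (fun y => g y i) x)
        + ∑ i, φ x i * lapS (fun y => g y i) x)
      - ((∑ i, (∑ j, g x j * pd j (fun y => g y i) x) * φ x i)
        + ∑ i, ∑ j, g x i * g x j * pd j (fun y => φ y i) x)
      + ∑ i, pd i P x * φ x i) = 0 := by
      rw [setIntegral_eq_integral_of_forall_compl_eq_zero]
      · have e : (fun x => ν * ((∑ i, ∑ j, pd j (fun y => φ y i) x * pd j (fun y => g y i) x)
            + ∑ i, φ x i * lapS (fun y => g y i) x)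
          - ((∑ i, (∑ j, g x j * pd j (fun y => g y i) x) * φ x i)
            + ∑ i, ∑ j, g x i * g x j * pd j (fun y => φ y i) x)
          + ∑ i, pd i P x * φ x i)
          = fun x => ν * (∑ j, pd j (fun y => ∑ i, φ y i * pd j (fun z => g z i) y) x)
            - (∑ j, pd j (fun y => g y j * ∑ i, g y i * φ y i) x)
            + ∑ j, pd j (fun y => P y * φ y j) x := by
          funext x
          rw [div1 hg.smooth hφ.smooth, div2 hg.smooth (hdiv hg) hφ.smooth,
            div3 hP.smooth hφ.smooth (hdiv hφ)]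
        rw [e]
        exact comb0 ν _ _ _ i1 i2 i3 z1 z2 z3
      · intro x hx
        have h0 : ∀ i j, pd j (fun y => φ y i) x = 0 := by
          intro i j
          have : x ∉ tsupport (pd j fun y => φ y i) := by
            intro hc
            have h2 := tsupport_pd (fun y => φ y i) j hc
            refine hx (hφ.supp (closure_mono ?_ h2))
            intro y hy h3
            apply hy
            simp [show φ y = 0 from h3]
          exact image_eq_zero_of_notMem_tsupport this
        simp [h0, hφz x hx]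
    have e1 := L2.integrable_inner (𝕜 := ℝ) Hh q.1
    have e2 := L2.integrable_inner (𝕜 := ℝ) (-(ν • Y) + tensL G) q.2
    have e3 := L2.integrable_inner (𝕜 := ℝ) X q.1
    rw [L2.inner_def, L2.inner_def, L2.inner_def, comb1 _ _ _ e1 e2 e3, ← hT]
    refine integral_congr_ae ?_
    filter_upwards [hG, hY, hH, hX, k2, k3, tensL_coe hm hGY, Lp.coeFn_add (-(ν • Y)) (tensL G),
      Lp.coeFn_neg (ν • Y), Lp.coeFn_smul ν Y] with x a1 a2 a3 a4 a5 a6 a7 a8 a9 a10
    have b1 : (-(ν • Y) + tensL G : L2M Ω) x = -(ν • jac g x) + tens (g x) := by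
      rw [a8, Pi.add_apply, a9, Pi.neg_apply, a10, Pi.smul_apply, a2, a7]
      show -(ν • jac g x) + tens (G x) = _
      rw [a1]
    rw [b1, a3, a4, a5, a6, inner_add_left, inner_neg_left, real_inner_smul_left, inner_E3,
      inner_E3, inner_M3, inner_M3]
    simp only [jac_pd hg.smooth, jac_pd hφ.smooth, tens_apply, Fin.sum_univ_three]
    ring
  intro p hp
  linarith [key p hp]

end Run7.h56.DD
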